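import Pool.Agent.MGP.Stmts

set_option autoImplicit false

namespace Pool.Agent.MGP.H3

/-- **SCL** of squad MGP. -/
theorem scl (prb : PrbStmt) : SclStmt := by
  intro N z H E σ K t hPar hσe hNσ hσE hHK hKH ht
  obtain ⟨hp1, hp2, hp3, hp4⟩ := prb N z H E hPar
  obtain ⟨_, hz1, hzN, hNz, h6z, hH, _⟩ := hPar
  set q := Nat.sqrt (σ + K ^ 2) with hq
  have hq1 : q ^ 2 ≤ σ + K ^ 2 := Nat.sqrt_le' _
  have hq2 : σ + K ^ 2 < (q + 1) ^ 2 := Nat.lt_succ_sqrt' _
  have hzbig : 34000000 ≤ z := by omega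
  have hzq : z ≤ q := by
    rw [hq]
    apply Nat.le_sqrt'.mpr
    omega
  have hK2 : K ^ 2 ≤ 64 * H ^ 2 := by
    have := Nat.pow_le_pow_left hKH 2
    nlinarith
  have hH2 : 1156000000 * H ^ 2 ≤ z ^ 2 := by
    have := Nat.pow_le_pow_left hp1 2
    nlinarith
  have hN' : N ≤ z ^ 2 + 2 * z := by nlinarith
  have ht100 : 100 * t ≤ 101 * z := by
    subst ht
    by_contra hcon
    have h1 : 101 * z < 100 * q + 100 := by omega
    have h2 : 101 * z ≤ 100 * q + 99 := by omega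
    -- bound for q ^ 2
    have h3 : 1000000 * q ^ 2 ≤ 1000010 * z ^ 2 + 2000020 * z + 1000000 := by
      have e1 : 500000 * E ≤ z ^ 2 + 2 * z := le_trans hp2 hN'
      nlinarith
    have h4 : (101 * z) ^ 2 ≤ (100 * q + 99) ^ 2 := Nat.pow_le_pow_left h2 2
    have h5 : q ≤ 2 * z := by nlinarith
    nlinarith
  refine ⟨by omega, ht100, ?_⟩
  have hKH2 : H ^ 2 ≤ K ^ 2 := Nat.pow_le_pow_left hHK 2
  have h2q : 100 * (2 * q + 1) ≤ 202 * z := by omega
  obtain ⟨w, hw⟩ : ∃ w, σ + w = (q + 1) ^ 2 := ⟨(q + 1) ^ 2 - σ, by omega⟩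
  have hw1 : K ^ 2 < w := by omega
  have hw2 : w ≤ K ^ 2 + 2 * q + 1 := by nlinarith
  have hw3 : 625 * w < 841 * K ^ 2 := by
    have hK1 : 1000000 ≤ K ^ 2 := by nlinarith
    nlinarith
  set h0 := Nat.sqrt (w - 1) with hh0
  have hw0 : 1 ≤ w := by omega
  have ha : h0 ^ 2 ≤ w - 1 := Nat.sqrt_le' _
  have hb : w - 1 < (h0 + 1) ^ 2 := Nat.lt_succ_sqrt' _
  have ha' : h0 ^ 2 < w := by omega
  have hb' : w ≤ (h0 + 1) ^ 2 := by omega
  have hKh : K < h0 + 1 := by
    by_contra hcon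
    have : h0 + 1 ≤ K := by omega
    have := Nat.pow_le_pow_left this 2
    omega
  have h25 : 25 * h0 ≤ 29 * K := by
    by_contra hcon
    have h1 : 29 * K ≤ 25 * h0 := by omega
    have := Nat.pow_le_pow_left h1 2
    nlinarith
  have htq : t ^ 2 = σ + w := by rw [hw, ht]
  rcases Nat.even_or_odd (t + h0) with hev | hod
  · -- even case
    obtain ⟨h, hh⟩ : ∃ h, h0 = h + 1 := ⟨h0 - 1, by omega⟩
    refine ⟨h, ?_, ?_, ?_, ?_, ?_⟩
    · rw [hh] at hev
      rcases Nat.even_or_odd (t + h) with h1 | h1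
      · exfalso
        obtain ⟨a, ha⟩ := hev
        obtain ⟨b, hb⟩ := h1
        omega
      · exact h1
    · rw [htq]
      have : h ^ 2 ≤ h0 ^ 2 := Nat.pow_le_pow_left (by omega) 2
      omega
    · rw [htq]
      have e1 : h + 2 = h0 + 1 := by omega
      rw [e1]
      have hne : w ≠ (h0 + 1) ^ 2 := by
        intro he
        have h3 : t ^ 2 = σ + (h0 + 1) ^ 2 := by rw [htq, he]
        have h4 : Even (σ + (h0 + 1) ^ 2 + (h0 + 1) ^ 2) := by
          rw [add_assoc]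
          exact hσe.add (Even.add_self _)
        rw [← h3] at h4
        have h5 : Even (t + (h0 + 1)) := by
          rw [Nat.even_add] at h4 ⊢
          rwa [Nat.even_pow' (by norm_num), Nat.even_pow' (by norm_num)] at h4
        obtain ⟨a, ha⟩ := hev
        obtain ⟨b, hb⟩ := h5
        omega
      omega
    · omega
    · omega
  · refine ⟨h0, hod, by omega, ?_, by omega, h25⟩
    rw [htq]
    have : (h0 + 1) ^ 2 < (h0 + 2) ^ 2 := Nat.pow_lt_pow_left (by omega) (by norm_num)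
    omega

end Pool.Agent.MGP.H3
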